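import Pool.Agent.L7h6.PL.Main


/-!
# Positive density along multiples of a fixed sequence (helper6), part 1: families of functions and cells

The method of `Pool.Agent.L7h6.PL` for an arbitrary family of nondecreasing functions `f n` of a real variable in place of
`ξ x ^ (e n)`.
-/

set_option autoImplicit false

namespace Pool.Agent.L7h6.PX

open MeasureTheory Set Finset Filter

/-- nonnegative nondecreasing functions on `[0, ∞)` -/
structure Fam (f : ℕ → ℝ → ℝ) : Prop where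
  meas : ∀ n, Measurable (f n)
  mono : ∀ n x y, 0 ≤ x → x ≤ y → f n x ≤ f n y
  nonneg : ∀ n x, 0 ≤ x → 0 ≤ f n x

/-- the set of the `x` with `⌊g x⌋ ∈ P` -/
def AF (g : ℝ → ℝ) (P : Set ℕ) : Set ℝ := {x | ⌊g x⌋₊ ∈ P}

lemma AF_measurable {g : ℝ → ℝ} (hg : Measurable g) (P : Set ℕ) : MeasurableSet (AF g P) :=
  (Nat.measurable_floor.comp hg) (MeasurableSet.of_discrete (s := P))

/-- the number of the cells -/
noncomputable def kk (s a b κ e : ℝ) : ℕ := ⌈(b - a) * s ^ (κ * e)⌉₊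

/-- the length of the cells -/
noncomputable def ll (s a b κ e : ℝ) : ℝ := (b - a) / kk s a b κ e

lemma ll_bounds {s a b κ e : ℝ} (hs : 1 < s) (h : 1 ≤ (b - a) * s ^ (κ * e)) :
    0 < kk s a b κ e ∧ s ^ (-(κ * e)) / 2 ≤ ll s a b κ e ∧ ll s a b κ e ≤ s ^ (-(κ * e)) := by
  have h1 : (b - a) * s ^ (κ * e) ≤ (kk s a b κ e : ℝ) := Nat.le_ceil _
  have h2 : (kk s a b κ e : ℝ) < (b - a) * s ^ (κ * e) + 1 := Nat.ceil_lt_add_one (by linarith)
  have hk : (0 : ℝ) < (kk s a b κ e : ℝ) := by linarith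
  have hpos : 0 < s ^ (κ * e) := Real.rpow_pos_of_pos (by linarith) _
  have hneg : s ^ (-(κ * e)) = (s ^ (κ * e))⁻¹ := Real.rpow_neg (by linarith) _
  refine ⟨by exact_mod_cast hk, ?_, ?_⟩
  · unfold ll
    rw [hneg, le_div_iff₀ hk, inv_eq_one_div, div_div, div_mul_eq_mul_div, one_mul, div_le_iff₀ (by positivity)]
    nlinarith
  · unfold ll
    rw [hneg, div_le_iff₀ hk, ← div_eq_inv_mul, le_div_iff₀ hpos]
    linarith

end Pool.Agent.L7h6.PX
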