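import Pool.Agent.L7h6.PX.Defs

/-!
# Positive density along multiples of a fixed sequence (helper6), part 4: the grid for the functions `x B ^ e`
-/

set_option autoImplicit false

namespace Pool.Agent.L7h6.PX

open MeasureTheory Set Finset Filter
open Pool.Agent.L7h6.PL (Win ev_base ev_small)

/-- level sets are short -/
lemma level {D u v : ℝ} (hD : 0 < D) (hu : 0 ≤ u) (m : ℕ) :
    volume (Ioc u v ∩ {x | ⌊x * D⌋₊ = m}) ≤ ENNReal.ofReal (1 / D) := by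
  refine (Real.volume_le_diam _).trans (Metric.ediam_le ?_)
  have key : ∀ x y : ℝ, u < x → x ≤ y → ⌊x * D⌋₊ = m → ⌊y * D⌋₊ = m → y - x ≤ 1 / D := by
    intro x y hx hxy h1 h2
    have hx0 : 0 ≤ x := hu.trans hx.le
    have h4 : (m : ℝ) ≤ x * D := by
      rw [← h1]
      exact Nat.floor_le (mul_nonneg hx0 hD.le)
    have h5 : y * D < m + 1 := by
      rw [← h2]
      exact Nat.lt_floor_add_one _
    rw [le_div_iff₀ hD]
    nlinarith
  rintro x ⟨hx1, hx2⟩ y ⟨hy1, hy2⟩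
  rw [edist_dist, Real.dist_eq]
  apply ENNReal.ofReal_le_ofReal
  rcases le_total x y with h | h
  · rw [abs_sub_comm, abs_of_nonneg (by linarith)]
    exact key x y hx1.1 h hx2 hy2
  · rw [abs_of_nonneg (by linarith)]
    exact key y x hy1.1 h hy2 hx2

open Classical in
/-- the measure in a cell -/
lemma cell {D u v : ℝ} (hD : 0 < D) (hu : 0 ≤ u) (P : Set ℕ) (X Y : ℕ)
    (hX : X < ⌊u * D⌋₊) (hY : ⌊v * D⌋₊ ≤ X + Y) :
    volume.real (Ioc u v ∩ AF (fun x => x * D) P) ≤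
      (#{m ∈ Finset.Ioc X (X + Y) | m ∈ P} : ℝ) * (1 / D) := by
  have hmono : ∀ x y : ℝ, x ≤ y → ⌊x * D⌋₊ ≤ ⌊y * D⌋₊ := fun x y h => Nat.floor_mono (mul_le_mul_of_nonneg_right h hD.le)
  have hsub : Ioc u v ∩ AF (fun x => x * D) P ⊆ ⋃ m ∈ ({m ∈ Finset.Ioc X (X + Y) | m ∈ P} : Finset ℕ),
      (Ioc u v ∩ {x | ⌊x * D⌋₊ = m}) := by
    rintro x ⟨h1, h2⟩
    rw [mem_iUnion₂]
    refine ⟨⌊x * D⌋₊, ?_, h1, rfl⟩
    rw [Finset.mem_filter, Finset.mem_Ioc]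
    exact ⟨⟨lt_of_lt_of_le hX (hmono _ _ h1.1.le), (hmono _ _ h1.2).trans hY⟩, h2⟩
  have h3 : volume (Ioc u v ∩ AF (fun x => x * D) P) ≤
      ENNReal.ofReal ((#{m ∈ Finset.Ioc X (X + Y) | m ∈ P} : ℝ) * (1 / D)) := by
    refine (measure_mono hsub).trans ((measure_biUnion_finset_le _ _).trans ?_)
    refine (Finset.sum_le_sum (fun m _ => level hD hu m)).trans ?_
    rw [Finset.sum_const, nsmul_eq_mul, ENNReal.ofReal_mul (by positivity), ENNReal.ofReal_natCast]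
  rw [Measure.real]
  exact ENNReal.toReal_le_of_le_ofReal (by positivity) h3

open Classical in
/-- **The proportion in every cell.** -/
theorem grid {B a b θ β ε : ℝ} (hB : 1 < B) (ha : 0 < a) (hab : a < b) (hθ0 : 0 < θ) (hθ1 : θ < 1) (hβ : 0 ≤ β)
    (hε : 0 < ε) : ∀ᶠ e : ℝ in atTop, 1 ≤ (b - a) * B ^ ((1 - θ) / 2 * e) ∧ ∀ P : Set ℕ,
      Win P θ β (√B ^ e) ((B + 1) ^ e) → ∀ u v : ℝ, a ≤ u → v ≤ b → v - u = ll B a b ((1 - θ) / 2) e →
        volume.real (Set.Ioc u v ∩ AF (fun x => x * B ^ e) P) ≤ (β + ε) * (v - u) := by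
  obtain ⟨κ, hκ⟩ : ∃ κ, κ = (1 - θ) / 2 := ⟨_, rfl⟩
  rw [← hκ]
  have hκ0 : 0 < κ := by rw [hκ]; linarith
  have hκ1 : κ < 1 := by rw [hκ]; linarith
  have hθκ : θ = 1 - 2 * κ := by rw [hκ]; ring
  have hB0 : 0 < B := by linarith
  have hb0 : 0 < b := by linarith
  have hsB : 1 < √B := by
    rw [Real.lt_sqrt (by norm_num)]
    linarith
  have hBκ : 1 < B ^ κ := Real.one_lt_rpow hB hκ0
  have hBκ2 : 1 < B ^ (1 - κ) := Real.one_lt_rpow hB (by linarith)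
  have hbb : 1 < (B + 1) / B := by rw [lt_div_iff₀ hB0]; linarith
  filter_upwards [ev_base hBκ (1 / (b - a)), ev_base hBκ (4 / a), ev_base hBκ2 (2 * (2 * β / ε + 1)),
      ev_base hBκ (2 * b / a ^ (2 * κ)), ev_base hB (8 / a), ev_base hsB (2 / a), ev_base hbb b, eventually_ge_atTop 1] with
    e c1 c2 c3 c4 c5 c6 c7 he1
  have hba : 0 < b - a := by linarith
  have e1 : ∀ x : ℝ, (B ^ x) ^ e = B ^ (x * e) := fun x => (Real.rpow_mul hB0.le x e).symm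
  rw [e1, div_le_iff₀ hba, mul_comm] at c1
  rw [e1, div_le_iff₀ ha] at c2
  rw [e1] at c3 c4
  rw [div_le_iff₀ (Real.rpow_pos_of_pos ha _)] at c4
  rw [div_le_iff₀ ha] at c5 c6
  rw [Real.div_rpow (by linarith) hB0.le, le_div_iff₀ (Real.rpow_pos_of_pos hB0 _)] at c7
  refine ⟨c1, fun P hP u v hu hv huv => ?_⟩
  obtain ⟨hk, hl1, hl2⟩ := ll_bounds hB c1
  obtain ⟨ℓ, hℓ⟩ : ∃ ℓ, ℓ = ll B a b κ e := ⟨_, rfl⟩
  rw [← hℓ] at hl1 hl2 huv
  rw [huv]
  have hneg0 : 0 < B ^ (-(κ * e)) := Real.rpow_pos_of_pos hB0 _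
  have hpos0 : 0 < B ^ (κ * e) := Real.rpow_pos_of_pos hB0 _
  have hinv : B ^ (κ * e) * B ^ (-(κ * e)) = 1 := by
    rw [← Real.rpow_add hB0]
    simp
  have hℓ0 : 0 < ℓ := by linarith
  have hu0 : 0 < u := by linarith
  have hv0 : 0 < v := by linarith
  have huv' : u ≤ v := by linarith
  obtain ⟨D, hD⟩ : ∃ D, D = B ^ e := ⟨_, rfl⟩
  rw [← hD] at c5 c7 ⊢
  have hDp : 0 < D := by rw [hD]; exact Real.rpow_pos_of_pos hB0 _
  obtain ⟨F, hF⟩ : ∃ F, F = u * D := ⟨_, rfl⟩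
  have hFv : v * D = F + D * ℓ := by
    rw [hF, ← huv]
    ring
  have hF8 : 8 ≤ F := by
    rw [hF]
    nlinarith
  have hF0 : 0 < F := by linarith
  have hDκ : D * B ^ (-(κ * e)) = B ^ ((1 - κ) * e) := by
    rw [hD, ← Real.rpow_add hB0]
    ring_nf
  have hDℓ : B ^ ((1 - κ) * e) / 2 ≤ D * ℓ := by
    rw [← hDκ]
    calc D * B ^ (-(κ * e)) / 2 = D * (B ^ (-(κ * e)) / 2) := by ring
      _ ≤ D * ℓ := mul_le_mul_of_nonneg_left hl1 hDp.le
  have hb1 : 2 * β / ε + 1 ≤ D * ℓ := by linarith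
  have haD : a * D ≤ F := by
    rw [hF]
    exact mul_le_mul_of_nonneg_right hu hDp.le
  have hFb : F ≤ b * D := by
    rw [hF]
    exact mul_le_mul_of_nonneg_right (by linarith) hDp.le
  have hFθ : F ^ θ ≤ D * ℓ := by
    refine le_trans ?_ hDℓ
    rw [← hDκ]
    have h1 : 2 * b * B ^ (κ * e) ≤ F ^ (2 * κ) := by
      have h2 : (a * D) ^ (2 * κ) ≤ F ^ (2 * κ) := Real.rpow_le_rpow (by positivity) haD (by linarith)
      have h3 : (a * D) ^ (2 * κ) = a ^ (2 * κ) * (B ^ (κ * e) * B ^ (κ * e)) := by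
        rw [Real.mul_rpow ha.le hDp.le, hD, ← Real.rpow_mul hB0.le, ← Real.rpow_add hB0]
        congr 2
        ring
      rw [h3] at h2
      refine le_trans ?_ h2
      calc 2 * b * B ^ (κ * e) ≤ (B ^ (κ * e) * a ^ (2 * κ)) * B ^ (κ * e) := mul_le_mul_of_nonneg_right c4 hpos0.le
        _ = _ := by ring
    have h5 : F ^ θ * F ^ (2 * κ) = F := by
      rw [← Real.rpow_add hF0, hθκ]
      simp
    have h6 : 0 < F ^ θ := Real.rpow_pos_of_pos hF0 _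
    have h7 : F ^ θ * (2 * b * B ^ (κ * e)) ≤ b * D := by
      calc F ^ θ * (2 * b * B ^ (κ * e)) ≤ F ^ θ * F ^ (2 * κ) := mul_le_mul_of_nonneg_left h1 h6.le
        _ = F := h5
        _ ≤ b * D := hFb
    have h8 : F ^ θ = F ^ θ * (2 * b * B ^ (κ * e)) * (B ^ (-(κ * e)) * (1 / (2 * b))) := by
      have : F ^ θ * (2 * b * B ^ (κ * e)) * (B ^ (-(κ * e)) * (1 / (2 * b))) =
          F ^ θ * (B ^ (κ * e) * B ^ (-(κ * e))) * (2 * b * (1 / (2 * b))) := by ring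
      rw [this, hinv, mul_one_div_cancel (by positivity)]
      ring
    rw [h8]
    calc _ ≤ b * D * (B ^ (-(κ * e)) * (1 / (2 * b))) := mul_le_mul_of_nonneg_right h7 (by positivity)
      _ = D * B ^ (-(κ * e)) / 2 := by field_simp
  have hDℓ2 : D * ℓ ≤ F / 4 := by
    have h1 : B ^ (-(κ * e)) ≤ a / 4 := by
      have h2 : 4 * B ^ (-(κ * e)) ≤ a := by
        calc 4 * B ^ (-(κ * e)) ≤ (B ^ (κ * e) * a) * B ^ (-(κ * e)) := mul_le_mul_of_nonneg_right c2 hneg0.le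
          _ = a * (B ^ (κ * e) * B ^ (-(κ * e))) := by ring
          _ = a := by rw [hinv, mul_one]
      linarith
    calc D * ℓ ≤ D * (a / 4) := mul_le_mul_of_nonneg_left (hl2.trans h1) hDp.le
      _ = a * D / 4 := by ring
      _ ≤ F / 4 := by linarith
  -- the window
  have hfu : ⌊F⌋₊ ≤ F := Nat.floor_le hF0.le
  have hfu' : F < ⌊F⌋₊ + 1 := Nat.lt_floor_add_one F
  have hG0 : 0 ≤ v * D := mul_nonneg hv0.le hDp.le
  have hfv : ⌊v * D⌋₊ ≤ v * D := Nat.floor_le hG0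
  have hfv' : v * D < ⌊v * D⌋₊ + 1 := Nat.lt_floor_add_one _
  have hmono : ⌊F⌋₊ ≤ ⌊v * D⌋₊ := by
    rw [hF]
    exact Nat.floor_mono (mul_le_mul_of_nonneg_right huv' hDp.le)
  have hF7 : 7 ≤ ⌊F⌋₊ := Nat.le_floor (by push_cast; linarith)
  obtain ⟨X, hX⟩ : ∃ X : ℕ, ⌊F⌋₊ = X + 1 := ⟨⌊F⌋₊ - 1, by omega⟩
  obtain ⟨Y, hY⟩ : ∃ Y : ℕ, ⌊v * D⌋₊ = X + Y := ⟨⌊v * D⌋₊ - X, by omega⟩
  have hXr : ((⌊F⌋₊ : ℕ) : ℝ) = X + 1 := by rw [hX]; push_cast; ring
  have hYr : ((⌊v * D⌋₊ : ℕ) : ℝ) = X + Y := by rw [hY]; push_cast; ring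
  rw [hXr] at hfu hfu'
  rw [hYr] at hfv hfv'
  have hYl : D * ℓ ≤ Y := by linarith
  have hYu : (Y : ℝ) ≤ D * ℓ + 2 := by linarith
  have hXF : (X : ℝ) ≤ F := by linarith
  have hX0 : (0 : ℝ) ≤ X := Nat.cast_nonneg X
  have hcount := hP.card X Y (by
      have h1 : √B ^ e * √B ^ e = B ^ e := by
        rw [← Real.mul_rpow (by positivity) (by positivity), Real.mul_self_sqrt hB0.le]
      have h2 : F / 2 ≤ X := by linarith
      have h3 : 0 < √B ^ e := Real.rpow_pos_of_pos (by linarith) _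
      have h4 : √B ^ e ≤ F / 2 := by
        have h5 : a * (√B ^ e * √B ^ e) ≤ F := by
          rw [h1, ← hD]
          exact haD
        nlinarith
      linarith) (by
      refine hXF.trans (hFb.trans ?_)
      exact c7) (by
      refine (Real.rpow_le_rpow hX0 hXF hθ0.le).trans (hFθ.trans hYl)) (by
      have h1 : (Y : ℝ) ≤ X := by linarith
      exact_mod_cast h1)
  have hcell := cell hDp hu0.le P X Y (by rw [← hF, hX]; omega) (by rw [hY]) (v := v)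
  refine hcell.trans ?_
  rw [mul_one_div, div_le_iff₀ hDp]
  have h1 : β * Y ≤ β * (D * ℓ + 2) := mul_le_mul_of_nonneg_left hYu hβ
  have h5 : 2 * β ≤ ε * (D * ℓ) := by
    have h6 : ε * (2 * β / ε + 1) ≤ ε * (D * ℓ) := mul_le_mul_of_nonneg_left hb1 hε.le
    have h7 : ε * (2 * β / ε + 1) = 2 * β + ε := by
      field_simp
    linarith
  calc (#{m ∈ Finset.Ioc X (X + Y) | m ∈ P} : ℝ) ≤ β * Y := hcount
    _ ≤ β * (D * ℓ) + 2 * β := by linarith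
    _ ≤ β * (D * ℓ) + ε * (D * ℓ) := by linarith
    _ = (β + ε) * ℓ * D := by ring

end Pool.Agent.L7h6.PX
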