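import Pool.Agent.L7h6.PX.LLN
import Pool.Agent.L7h6.PX.Grid
import Pool.Agent.L7h6.PL.Cor

/-!
# Positive density along multiples of a fixed geometric sequence (helper6), part 5: the theorem
-/

set_option autoImplicit false

namespace Pool.Agent.L7h6.PX

open MeasureTheory Set Finset Filter
open Pool.Agent.L7h6.PL (Win small sum_classes UpperWin LowerWin en en_eq block_sum weight_block sum_inv_le)

variable {e w : ℕ → ℝ} {P : ℕ → Set ℕ} {T : ℕ → Finset ℕ}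

/-- the functions `x B ^ (e n)` -/
noncomputable def ff (B : ℝ) (e : ℕ → ℝ) (n : ℕ) (x : ℝ) : ℝ := x * B ^ e n

lemma ff_fam {B : ℝ} (hB : 0 < B) (e : ℕ → ℝ) : Fam (ff B e) where
  meas n := by
    unfold ff
    exact measurable_id.mul_const _
  mono n x y _ hxy := mul_le_mul_of_nonneg_right hxy (Real.rpow_nonneg hB.le _)
  nonneg n x hx := mul_nonneg hx (Real.rpow_nonneg hB.le _)

/-- the law in an interval, for one `ε` -/
lemma interval_law {B a b θ β ε C₀ : ℝ} (hB : 1 < B) (ha : 0 < a) (hab : a < b) (hθ0 : 0 < θ) (hθ1 : θ < 1)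
    (hw : ∀ n, 0 ≤ w n) (hβ : 0 ≤ β) (hβ1 : β ≤ 1) (hε : 0 < ε) (hε1 : ε ≤ 1) (hC₀ : 1 ≤ C₀)
    (hT : ∀ j, ∀ n ∈ T j, (2 : ℝ) ^ j ≤ e n ∧ e n < 2 ^ (j + 1)) (hcard : ∀ j, (#(T j) : ℝ) ≤ C₀ ^ (2 ^ j : ℕ))
    (hsum : ∀ j, ∑ n ∈ T j, w n ≤ 1)
    (hP : ∃ j₀ : ℕ, ∀ j, j₀ ≤ j → ∀ n ∈ T j, Win (P n) θ β (√B ^ e n) ((B + 1) ^ e n)) :
    ∀ᵐ x ∂(volume.restrict (Set.Ioc a b)), ∀ᶠ J : ℕ in atTop,
      ∑ j ∈ range J, WW (ff B e) w P (T j) x ≤ β * ∑ j ∈ range J, ∑ n ∈ T j, w n + 4 * ε * J := by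
  obtain ⟨κ, hκ⟩ : ∃ κ, κ = (1 - θ) / 2 := ⟨_, rfl⟩
  have hκ0 : 0 < κ := by rw [hκ]; linarith
  have hb0 : 0 < b := by linarith
  have hba : 0 < b - a := by linarith
  have hB0 : 0 < B := by linarith
  obtain ⟨E₀, hE₀⟩ := eventually_atTop.1 (grid hB ha hab hθ0 hθ1 hβ hε)
  rw [← hκ] at hE₀
  obtain ⟨j₀, hj₀⟩ := hP
  have hs : 0 < κ / 2 * Real.log B := mul_pos (by linarith) (Real.log_pos hB)
  obtain ⟨J₁, hJ₁⟩ := small hs (show 0 < ε * (b - a) / b by positivity)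
  obtain ⟨J₂, hJ₂⟩ := exists_nat_ge E₀
  obtain ⟨J₀, hJ₀⟩ : ∃ J₀ : ℕ, J₀ = j₀ + J₁ + J₂ := ⟨_, rfl⟩
  have hc : 1 < B ^ (κ / 2) := Real.one_lt_rpow hB (by linarith)
  obtain ⟨L, hL⟩ := pow_unbounded_of_one_lt ((C₀ * B) ^ 2) hc
  have hL1 : 1 ≤ L := by
    rcases Nat.eq_zero_or_pos L with h | h
    · rw [h, pow_zero] at hL
      have : 1 < C₀ * B := by nlinarith
      nlinarith
    · exact h
  have hbig : (C₀ * B) ^ 2 ≤ (B ^ (κ / 2)) ^ (2 ^ L : ℕ) :=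
    hL.le.trans (pow_le_pow_right₀ hc.le (Nat.lt_two_pow_self (n := L)).le)
  have hgrid : ∀ j, J₀ ≤ j → ∀ n ∈ T j, 1 ≤ (b - a) * B ^ (κ * e n) ∧ ∀ u v : ℝ, a ≤ u → v ≤ b →
      v - u = ll B a b κ (e n) → volume.real (Set.Ioc u v ∩ AF (ff B e n) (P n)) ≤ (β + ε) * (v - u) := by
    intro j hj n hn
    have h1 : E₀ ≤ e n := by
      have h2 := (hT j n hn).1
      have h3 : (J₂ : ℝ) ≤ 2 ^ j := by
        have h4 : J₂ ≤ 2 ^ j := by
          have := (Nat.lt_two_pow_self (n := j)).le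
          omega
        exact_mod_cast h4
      linarith
    obtain ⟨h2, h3⟩ := hE₀ (e n) h1
    exact ⟨h2, fun u v hu hv huv => h3 (P n) (hj₀ j (by omega) n hn) u v hu hv huv⟩
  have hcls : ∀ r : ℕ, ∀ᵐ x ∂(volume.restrict (Set.Ioc a b)), ∀ᶠ N : ℕ in atTop,
      HH (ff B e) w P T (J₀ + r) L N x ≤
        ∑ i ∈ range N, ((β + ε) * ∑ n ∈ T (J₀ + r + L * i), w n) + 2 * ε * N := fun r =>
    ae_class (g := B) (C₁ := b) (e := e) hB hB.le hb0 (ff_fam hB0 e) (fun n => le_rfl) ha hab hw (by linarith) (by linarith) hε hε1 hC₀ hκ0 hL1 hT hcard hsum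
      (fun j hj => hgrid j (by omega)) hbig (fun N => hJ₁ (J₀ + r) (by omega) N)
  filter_upwards [ae_all_iff.2 hcls] with x hx
  have hx' : ∀ᶠ N : ℕ in atTop, ∀ r ∈ range L, HH (ff B e) w P T (J₀ + r) L N x ≤
        ∑ i ∈ range N, ((β + ε) * ∑ n ∈ T (J₀ + r + L * i), w n) + 2 * ε * N :=
    (Filter.eventually_all_finset _).2 fun r _ => hx r
  obtain ⟨N₁, hN₁⟩ := eventually_atTop.1 hx'
  obtain ⟨J₃, hJ₃⟩ := exists_nat_ge ((J₀ + 4 * L) / ε)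
  filter_upwards [eventually_ge_atTop (J₀ + L * N₁ + J₃)] with J hJ
  obtain ⟨N, hN⟩ : ∃ N : ℕ, N = (J - J₀) / L + 1 := ⟨_, rfl⟩
  have hN1 : J ≤ J₀ + L * N := by
    have h1 := Nat.div_add_mod (J - J₀) L
    have h2 := Nat.mod_lt (J - J₀) (show 0 < L by omega)
    rw [hN, Nat.mul_add]
    omega
  have hN2 : J₀ + L * N ≤ J + L := by
    have h1 := Nat.div_add_mod (J - J₀) L
    rw [hN, Nat.mul_add]
    omega
  have hN3 : N₁ ≤ N := by
    rw [hN]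
    have : N₁ ≤ (J - J₀) / L := by
      rw [Nat.le_div_iff_mul_le (by omega), mul_comm]
      omega
    omega
  have hall := hN₁ N hN3
  obtain ⟨ω, hω⟩ : ∃ ω : ℕ → ℝ, ω = fun j => ∑ n ∈ T j, w n := ⟨_, rfl⟩
  obtain ⟨V, hV⟩ : ∃ V : ℕ → ℝ, V = fun j => WW (ff B e) w P (T j) x := ⟨_, rfl⟩
  have hω0 : ∀ j, 0 ≤ ω j := fun j => by rw [hω]; exact Finset.sum_nonneg fun n _ => hw n
  have hω1 : ∀ j, ω j ≤ 1 := fun j => by rw [hω]; exact hsum j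
  have hV0 : ∀ j, 0 ≤ V j := fun j => by rw [hV]; exact WW_nonneg hw _ _
  have hV1 : ∀ j, V j ≤ 1 := fun j => by rw [hV]; exact (WW_le hw _ _).trans (hsum j)
  have hS : ∑ j ∈ range (L * N), V (J₀ + j) ≤ (β + ε) * ∑ j ∈ range (L * N), ω (J₀ + j) + 2 * ε * (L * N) := by
    rw [← sum_classes V, ← sum_classes ω]
    calc ∑ r ∈ range L, ∑ i ∈ range N, V (J₀ + r + L * i)
        ≤ ∑ r ∈ range L, (∑ i ∈ range N, ((β + ε) * ω (J₀ + r + L * i)) + 2 * ε * N) := by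
          refine Finset.sum_le_sum fun r hr => ?_
          have := hall r hr
          rw [hV, hω]
          exact this
      _ = _ := by
          rw [Finset.sum_add_distrib, Finset.sum_const, card_range, nsmul_eq_mul, Finset.mul_sum]
          congr 1
          · refine Finset.sum_congr rfl fun r _ => ?_
            rw [Finset.mul_sum]
          · ring
  have e1 : ∑ j ∈ range J, V j ≤ J₀ + ∑ j ∈ range (L * N), V (J₀ + j) := by
    calc ∑ j ∈ range J, V j ≤ ∑ j ∈ range (J₀ + L * N), V j :=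
          Finset.sum_le_sum_of_subset_of_nonneg (Finset.range_subset_range.2 hN1) fun j _ _ => hV0 j
      _ = ∑ j ∈ range J₀, V j + ∑ j ∈ range (L * N), V (J₀ + j) := Finset.sum_range_add _ _ _
      _ ≤ ∑ j ∈ range J₀, (1 : ℝ) + ∑ j ∈ range (L * N), V (J₀ + j) :=
          add_le_add (Finset.sum_le_sum fun j _ => hV1 j) le_rfl
      _ = _ := by simp
  have e2 : ∑ j ∈ range (L * N), ω (J₀ + j) ≤ ∑ j ∈ range J, ω j + L := by
    obtain ⟨D, hD⟩ : ∃ D, J₀ + L * N = J + D := ⟨J₀ + L * N - J, by omega⟩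
    have hDL : D ≤ L := by omega
    have h1 : ∑ j ∈ range J₀, ω j + ∑ j ∈ range (L * N), ω (J₀ + j) = ∑ j ∈ range J, ω j +
        ∑ j ∈ range D, ω (J + j) := by
      rw [← Finset.sum_range_add, hD, Finset.sum_range_add]
    have h2 : 0 ≤ ∑ j ∈ range J₀, ω j := Finset.sum_nonneg fun j _ => hω0 j
    have h3 : ∑ j ∈ range D, ω (J + j) ≤ D := by
      calc _ ≤ ∑ j ∈ range D, (1 : ℝ) := Finset.sum_le_sum fun j _ => hω1 _
        _ = D := by simp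
    have h4 : (D : ℝ) ≤ L := by exact_mod_cast hDL
    linarith
  have e3 : ∑ j ∈ range J, ω j ≤ J := by
    calc _ ≤ ∑ j ∈ range J, (1 : ℝ) := Finset.sum_le_sum fun j _ => hω1 _
      _ = J := by simp
  have e4 : ((L * N : ℕ) : ℝ) ≤ J + L := by exact_mod_cast (show L * N ≤ J + L by omega)
  push_cast at e4
  have e5 : (J₀ : ℝ) + 4 * L ≤ ε * J := by
    rw [div_le_iff₀ hε] at hJ₃
    have h1 : (J₃ : ℝ) ≤ J := by exact_mod_cast (show J₃ ≤ J by omega)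
    nlinarith
  have hL0 : (0 : ℝ) ≤ L := Nat.cast_nonneg L
  have hJ0 : (0 : ℝ) ≤ J := Nat.cast_nonneg J
  obtain ⟨Ω, hΩ⟩ : ∃ Ω, Ω = ∑ j ∈ range J, ω j := ⟨_, rfl⟩
  have hΩ0 : 0 ≤ Ω := by rw [hΩ]; exact Finset.sum_nonneg fun j _ => hω0 j
  have goal : ∑ j ∈ range J, V j ≤ β * Ω + 4 * ε * J := by
    have h1 : (β + ε) * ∑ j ∈ range (L * N), ω (J₀ + j) ≤ (β + ε) * (Ω + L) :=
      mul_le_mul_of_nonneg_left (by rw [hΩ]; exact e2) (by linarith)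
    have h2 : 2 * ε * (L * N) ≤ 2 * ε * (J + L) := mul_le_mul_of_nonneg_left e4 (by linarith)
    rw [← hΩ] at e3
    have h3 : ε * Ω ≤ ε * J := mul_le_mul_of_nonneg_left e3 hε.le
    have h4 : β * L ≤ 1 * L := mul_le_mul_of_nonneg_right hβ1 hL0
    have h5 : ε * L ≤ 1 * L := mul_le_mul_of_nonneg_right hε1 hL0
    nlinarith
  rw [hΩ, hV, hω] at goal
  exact goal

/-- **Density along multiples of a fixed geometric sequence.** As `PL.powers_law`, for the numbers `x B ^ (e n)`, for a fixed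
real `B > 1` and almost every `x > 0`. -/
theorem multiples_law {B θ β C₀ : ℝ} (hB : 1 < B) (hθ0 : 0 < θ) (hθ1 : θ < 1)
    (hw : ∀ n, 0 ≤ w n) (hβ : 0 ≤ β) (hβ1 : β ≤ 1) (hC₀ : 1 ≤ C₀)
    (hT : ∀ j, ∀ n ∈ T j, (2 : ℝ) ^ j ≤ e n ∧ e n < 2 ^ (j + 1)) (hcard : ∀ j, (#(T j) : ℝ) ≤ C₀ ^ (2 ^ j : ℕ))
    (hsum : ∀ j, ∑ n ∈ T j, w n ≤ 1)
    (hP : ∃ j₀ : ℕ, ∀ j, j₀ ≤ j → ∀ n ∈ T j, Win (P n) θ β (√B ^ e n) ((B + 1) ^ e n)) :
    ∀ᵐ x : ℝ, 0 < x → ∀ ε : ℝ, 0 < ε → ∀ᶠ J : ℕ in atTop,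
      ∑ j ∈ range J, WW (ff B e) w P (T j) x ≤ β * ∑ j ∈ range J, ∑ n ∈ T j, w n + ε * J := by
  have h1 : ∀ k m : ℕ, ∀ᵐ x : ℝ, x ∈ Set.Ioc (1 / ((m : ℝ) + 1)) (m + 3) → ∀ᶠ J : ℕ in atTop,
      ∑ j ∈ range J, WW (ff B e) w P (T j) x ≤
        β * ∑ j ∈ range J, ∑ n ∈ T j, w n + 4 * (1 / ((k : ℝ) + 1)) * J := by
    intro k m
    have hm : (0 : ℝ) < m + 1 := by positivity
    have hk : (0 : ℝ) < k + 1 := by positivity
    have h2 : 0 < 1 / ((m : ℝ) + 1) := by positivity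
    have h3 : 1 / ((m : ℝ) + 1) ≤ 1 := by
      rw [div_le_one hm]
      have : (0 : ℝ) ≤ m := Nat.cast_nonneg m
      linarith
    have h4 : 1 / ((k : ℝ) + 1) ≤ 1 := by
      rw [div_le_one hk]
      have : (0 : ℝ) ≤ k := Nat.cast_nonneg k
      linarith
    have hm0 : (0 : ℝ) ≤ m := Nat.cast_nonneg m
    have h5 := interval_law (a := 1 / ((m : ℝ) + 1)) (b := m + 3) (ε := 1 / ((k : ℝ) + 1)) (P := P)
      hB h2 (by linarith) hθ0 hθ1 hw hβ hβ1 (by positivity) h4 hC₀ hT hcard hsum hP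
    exact (ae_restrict_iff' measurableSet_Ioc).1 h5
  filter_upwards [ae_all_iff.2 fun k => ae_all_iff.2 fun m => h1 k m] with α hα hα0 ε hε
  obtain ⟨k, hk⟩ := exists_nat_ge (4 / ε)
  obtain ⟨m, hm⟩ := exists_nat_ge (max (1 / α) α)
  have hm1 : 1 / α ≤ m := (le_max_left _ _).trans hm
  have hm2 : α ≤ m := (le_max_right _ _).trans hm
  have hmem : α ∈ Set.Ioc (1 / ((m : ℝ) + 1)) (m + 3) := by
    constructor
    · rw [div_le_iff₀ hα0] at hm1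
      rw [div_lt_iff₀ (by positivity)]
      nlinarith
    · linarith
  filter_upwards [hα k m hmem] with J hJ
  refine hJ.trans ?_
  have h2 : 4 * (1 / ((k : ℝ) + 1)) ≤ ε := by
    rw [div_le_iff₀ hε] at hk
    rw [mul_one_div, div_le_iff₀ (by positivity)]
    nlinarith
  have := mul_le_mul_of_nonneg_right h2 (Nat.cast_nonneg (α := ℝ) J)
  linarith

lemma one_lt_sqrt {B : ℝ} (hB : 1 < B) : 1 < √B := by
  rw [Real.lt_sqrt (by norm_num)]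
  linarith

lemma sqrt_lt_add {B : ℝ} (hB : 1 < B) : √B < B + 1 := by
  have : √B ≤ B := by
    rw [Real.sqrt_le_left (by linarith)]
    nlinarith
  linarith

lemma ff_en (B x : ℝ) {n : ℕ} (hn : 1 ≤ n) : ff B en n x = x * B ^ n := by
  unfold ff
  rw [en_eq hn, Real.rpow_natCast]

open Classical in
/-- **Upper logarithmic density along multiples.** -/
theorem log_law {P : ℕ → Set ℕ} {B θ β : ℝ} (hB : 1 < B) (hθ0 : 0 < θ) (hθ1 : θ < 1) (hβ : 0 ≤ β) (hβ1 : β ≤ 1)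
    (hP : UpperWin P (fun n => (n : ℝ)) θ β) :
    ∀ᵐ x : ℝ, 0 < x → ∀ ε : ℝ, 0 < ε → ∀ᶠ N : ℕ in atTop,
      ∑ n ∈ (Finset.Icc 1 N).filter (fun n => ⌊x * B ^ n⌋₊ ∈ P n), 1 / (n : ℝ) ≤ (β + ε) * Real.log N := by
  have h := multiples_law (B := B) (e := en) (w := fun n => 1 / (n : ℝ)) (P := P)
    (T := fun j => Finset.Ico (2 ^ j) (2 ^ (j + 1))) (θ := θ) (β := β) (C₀ := 2) hB hθ0 hθ1
    (fun n => by positivity) hβ hβ1 (by norm_num)
    (fun j n hn => by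
      rw [Finset.mem_Ico] at hn
      have h1 : 1 ≤ n := Nat.one_le_two_pow.trans hn.1
      rw [en_eq h1]
      exact ⟨by exact_mod_cast hn.1, by exact_mod_cast hn.2⟩)
    (fun j => by
      rw [Nat.card_Ico]
      have h1 : 2 ^ (j + 1) - 2 ^ j = 2 ^ j := by rw [pow_succ]; omega
      have h2 : 2 ^ j ≤ 2 ^ (2 ^ j) := Nat.pow_le_pow_right (by norm_num) (Nat.lt_two_pow_self (n := j)).le
      rw [h1]
      exact_mod_cast h2)
    weight_block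
    (by
      obtain ⟨n₀, hn₀⟩ := hP (√B) (B + 1) (one_lt_sqrt hB) (sqrt_lt_add hB)
      refine ⟨n₀, fun j hj n hn => ?_⟩
      rw [Finset.mem_Ico] at hn
      have h1 : 1 ≤ n := Nat.one_le_two_pow.trans hn.1
      rw [en_eq h1]
      refine hn₀ n ?_
      have := (Nat.lt_two_pow_self (n := j)).le
      omega)
  filter_upwards [h] with x hα hα1 ε hε
  obtain ⟨ε', hε'⟩ : ∃ ε', ε' = ε * Real.log 2 / 2 := ⟨_, rfl⟩
  have hlog2 : 0 < Real.log 2 := Real.log_pos one_lt_two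
  have hε'0 : 0 < ε' := by rw [hε']; positivity
  obtain ⟨J₀, hJ₀⟩ := eventually_atTop.1 (hα hα1 ε' hε'0)
  have hlim : Tendsto (fun N : ℕ => Real.log N) atTop atTop := Real.tendsto_log_atTop.comp tendsto_natCast_atTop_atTop
  filter_upwards [eventually_ge_atTop (2 ^ J₀), hlim.eventually_ge_atTop ((2 + Real.log 2 + ε') * 2 / ε),
    eventually_ge_atTop 1] with N hN hN2 hN1
  obtain ⟨J, hJ⟩ : ∃ J, J = Nat.log 2 N + 1 := ⟨_, rfl⟩
  have hJJ : J₀ ≤ J := by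
    have := Nat.le_log_of_pow_le (by norm_num : 1 < 2) hN
    omega
  have hNJ : N < 2 ^ J := by rw [hJ]; exact Nat.lt_pow_succ_log_self (by norm_num) N
  have hJN : 2 ^ (J - 1) ≤ N := by
    rw [hJ]
    exact Nat.pow_log_le_self 2 (by omega)
  have hN0 : (0 : ℝ) < N := by exact_mod_cast hN1
  have hJlog : (J : ℝ) * Real.log 2 ≤ Real.log N + Real.log 2 := by
    have h1 : ((2 : ℝ) ^ (J - 1)) ≤ N := by exact_mod_cast hJN
    have h2 := Real.log_le_log (by positivity) h1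
    rw [Real.log_pow] at h2
    have h3 : ((J - 1 : ℕ) : ℝ) = J - 1 := by
      rw [Nat.cast_sub (by omega)]
      push_cast
      ring
    rw [h3] at h2
    linarith
  have hmain := hJ₀ J hJJ
  rw [block_sum] at hmain
  have hW : ∑ j ∈ range J, WW (ff B en) (fun n => 1 / (n : ℝ)) P (Finset.Ico (2 ^ j) (2 ^ (j + 1))) x =
      ∑ n ∈ (Finset.Ico 1 (2 ^ J)).filter (fun n => ⌊x * B ^ n⌋₊ ∈ P n), 1 / (n : ℝ) := by
    unfold WW
    rw [block_sum (fun n => 1 / (n : ℝ) * (AF (ff B en n) (P n)).indicator (fun _ => (1 : ℝ)) x), Finset.sum_filter]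
    refine Finset.sum_congr rfl fun n hn => ?_
    rw [Finset.mem_Ico] at hn
    have h1 : x ∈ AF (ff B en n) (P n) ↔ ⌊x * B ^ n⌋₊ ∈ P n := by
      show ⌊ff B en n x⌋₊ ∈ P n ↔ _
      rw [ff_en B x hn.1]
    by_cases h2 : ⌊x * B ^ n⌋₊ ∈ P n
    · rw [if_pos h2, indicator_of_mem (h1.2 h2), mul_one]
    · rw [if_neg h2, indicator_of_notMem (fun h3 => h2 (h1.1 h3)), mul_zero]
  rw [hW] at hmain
  have hsub : ∑ n ∈ (Finset.Icc 1 N).filter (fun n => ⌊x * B ^ n⌋₊ ∈ P n), 1 / (n : ℝ) ≤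
      ∑ n ∈ (Finset.Ico 1 (2 ^ J)).filter (fun n => ⌊x * B ^ n⌋₊ ∈ P n), 1 / (n : ℝ) := by
    refine Finset.sum_le_sum_of_subset_of_nonneg (fun n hn => ?_) (fun n _ _ => by positivity)
    rw [Finset.mem_filter, Finset.mem_Icc] at hn
    rw [Finset.mem_filter, Finset.mem_Ico]
    exact ⟨⟨hn.1.1, by omega⟩, hn.2⟩
  have hwt := sum_inv_le J
  have h1 : β * ∑ n ∈ Finset.Ico 1 (2 ^ J), 1 / ((n : ℕ) : ℝ) ≤ β * (1 + (Real.log N + Real.log 2)) :=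
    mul_le_mul_of_nonneg_left (by linarith) hβ
  have h2 : β * (1 + Real.log 2) ≤ 1 * (1 + Real.log 2) := mul_le_mul_of_nonneg_right hβ1 (by linarith)
  have h3 : ε' * J ≤ ε / 2 * (Real.log N + Real.log 2) := by
    have : ε' * J = ε / 2 * (J * Real.log 2) := by rw [hε']; ring
    rw [this]
    exact mul_le_mul_of_nonneg_left hJlog (by linarith)
  have h4 : 2 + Real.log 2 + ε' ≤ ε / 2 * Real.log N := by
    rw [div_le_iff₀ hε] at hN2
    linarith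
  have h5 : ε / 2 * Real.log 2 = ε' := by rw [hε']; ring
  nlinarith

open Classical in
/-- **Lower logarithmic density along multiples.** -/
theorem log_law_lower {Q : ℕ → Set ℕ} {B θ c : ℝ} (hB : 1 < B) (hθ0 : 0 < θ) (hθ1 : θ < 1) (hc : 0 ≤ c) (hc1 : c ≤ 1)
    (hQ : LowerWin Q (fun n => (n : ℝ)) θ c) :
    ∀ᵐ x : ℝ, 0 < x → ∀ ε : ℝ, 0 < ε → ∀ᶠ N : ℕ in atTop,
      (c - ε) * Real.log N ≤ ∑ n ∈ (Finset.Icc 1 N).filter (fun n => ⌊x * B ^ n⌋₊ ∈ Q n), 1 / (n : ℝ) := by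
  filter_upwards [log_law hB hθ0 hθ1 (by linarith) (by linarith) hQ.compl] with x hα hα1 ε hε
  filter_upwards [hα hα1 ε hε, eventually_ge_atTop 1] with N hN hN1
  have h1 : ∑ n ∈ (Finset.Icc 1 N).filter (fun n => ⌊x * B ^ n⌋₊ ∈ Q n), 1 / (n : ℝ) +
      ∑ n ∈ (Finset.Icc 1 N).filter (fun n => ¬ ⌊x * B ^ n⌋₊ ∈ Q n), 1 / (n : ℝ) = ∑ n ∈ Finset.Icc 1 N, 1 / (n : ℝ) :=
    Finset.sum_filter_add_sum_filter_not _ _ _
  have hN' : ∑ n ∈ (Finset.Icc 1 N).filter (fun n => ¬ ⌊x * B ^ n⌋₊ ∈ Q n), 1 / (n : ℝ) ≤ (1 - c + ε) * Real.log N := by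
    refine le_trans (le_of_eq ?_) hN
    congr!
  have h2 : Real.log N ≤ ∑ n ∈ Finset.Icc 1 N, 1 / (n : ℝ) := by
    have h3 := log_add_one_le_harmonic N
    rw [harmonic_eq_sum_Icc] at h3
    push_cast at h3
    simp only [one_div]
    refine le_trans (Real.log_le_log (by exact_mod_cast hN1) (by linarith)) h3
  nlinarith

end Pool.Agent.L7h6.PX
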